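import Pool.Agent.Lib.MP_08f71d_gt.Inhomog

/-!
# An inhomogeneous hyperpolar foliation of codimension two

On the Siegel upper half space of degree three (the irreducible symmetric space of noncompact type
`Sp(6,ℝ)/U(3)`) there is a hyperpolar foliation of codimension two whose leaves are not the orbits
of any set of isometries.

The foliation: the unipotent group `N` of the Iwasawa decomposition acts with flat sections, and the
orbit space of its action is the flat space `ℝ³`. The leaves are the preimages of the circles in
`ℝ³` with axis spanned by `(3, 2, 1)`.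
-/

set_option autoImplicit false

namespace Pool.Agent.Results.MP_08f71d_gt.InhomogeneousHyperpolar

open Pool.Agent.Lib.MP_08f71d_gt

/-- There is an inhomogeneous hyperpolar foliation of codimension two on the Siegel upper half space
of degree three. -/
theorem result : ∃ leaf : E12 → Set E12,
    IsHyperpolar siegel leaf 2 ∧ ¬ LeavesAreOrbits siegel leaf := by
  refine ⟨Pool.Agent.Lib.MP_08f71d_gt.leaf, ⟨leaf_foliation, fun x _ => leaf_submanifold x, ?_,
    ?_⟩, not_leavesAreOrbits⟩
  · refine ⟨dg fun i => Real.exp ((![0, 1, -2] : Fin 3 → ℝ) i), dg_mem fun _ => Real.exp_pos _,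
      leaf_submanifold_two ?_⟩
    rw [tm_dg]
    intro h
    have := congrFun h 0
    simp [rot] at this
    norm_num at this
  · intro x hx
    obtain ⟨n, b, hnb⟩ := exists_decomp' (z := x) hx
    obtain ⟨e, p, q, he, hae, ht⟩ := exists_plane (tm x)
    refine ⟨sec e (tm x) n b, ?_, sec_isFlatSection he hae ht⟩
    rw [hnb]
    unfold sec pl
    congr 2
    ext1 i
    simp [← hnb]

end Pool.Agent.Results.MP_08f71d_gt.InhomogeneousHyperpolar
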